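import Pool.Agent.H370.XT.Fin

/-!
# MP_b7840d_al, Q1: the maps which are tridiagonal on one eigenspace flag and triangular on the other

`A`, `B` (the map called `A*` in the problem) is a tridiagonal pair with eigenspaces
`V_i` (of `A` for `a i`) and `V*_i` (of `B` for `b i`), `0 ≤ i ≤ d`, in standard orders.
We determine all linear maps `X` with
`X V*_i ⊆ V*_0 + ⋯ + V*_i` and `X V_i ⊆ V_{i-1} + V_i + V_{i+1}` for `0 ≤ i ≤ d` (`FlagTri`).

Put `L_j = (V*_0 + ⋯ + V*_j) ∩ (V_j + ⋯ + V_{d-j})` (`Low`),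
`M_j = (V*_0 + ⋯ + V*_{j+1}) ∩ (V_j + ⋯ + V_{d-j})` (`Mid`),
`τ_{j,s} = (A - a_j) (A - a_{j+1}) ⋯ (A - a_{j+s-1})` (`tau A a j s`),
`ϑ_{j,s} = ∑_{h<s} (a_{j+h} - a_{d-j-h})` (`AA d a j s`), and, for `β` with
`a_i - a_{i+3} = (β + 1) (a_{i+1} - a_{i+2})` for `i + 3 ≤ d` (`Recur`),
`T_0 = 0`, `T_1 = 1`, `T_{n+2} = β T_{n+1} - T_n + 1` (`TT β n`).
-/

set_option autoImplicit false

open Module Pool.Agent.R841.TD Pool.Agent.H370.XT
open Pool.Agent.Helper9.TD (TDOrdering)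

namespace Pool.Agent.Results.MP_b7840d_al.FlagTridiagonalMaps

/-- Let `A, B` be a tridiagonal pair with eigenspaces in standard orders.

1. (`StringDecomp`) Every `v` is uniquely a sum of vectors `τ_{j,s} q_{j,s}` with `2 j + s ≤ d` and
   `q_{j,s} ∈ L_j`.
2. There is `β` with `Recur d a β`.
3. For every such `β`: consider families `(c, φ, γ, η)` of linear maps `c : L_0 → L_0`,
   `φ_j : L_j → M_j`, `γ_j : L_j → M_{j+1}` and `η_j : L_{j+1} → M_j`. Each of them gives exactly one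
   linear map `X` through the formulas (`Given`)
   `X τ_{0,s} q = τ_{0,s} c q + ϑ_{0,s} τ_{0,s-1} φ_0 q + T_{s-1} τ_{1,s-2} γ_0 q`
   (`s ≤ d`, `q ∈ L_0`) and
   `X τ_{i,s} q = ϑ_{i,s} τ_{i,s-1} φ_i q + T_{s-1} τ_{i+1,s-2} γ_i q
      + T_{d+1-2i-s} τ_{i-1,s} η_{i-1} q` (`i ≥ 1`, `2 i + s ≤ d`, `q ∈ L_i`),
   and this `X` satisfies the two conditions of Q1 (`ProducesX`). Every `X` which satisfies the two
   conditions arises in this way (`ExhaustsX`), and it determines `c`, the `φ_j` with `2 j < d` and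
   the `γ_j`, `η_j` with `2 j + 2 ≤ d` (`FaithfulX`); the others do not matter.
4. (`DimEigenspaces`) `dim V_i = ∑_{j ≤ min(i, d-i)} n_j`, `n_j = dim L_j`.
5. (`DimsM`) `m_j = dim M_j` is `n_{j-1} + 2 n_j + n_{j+1}` if `2 j < d` and `n_{j-1} + n_j`
   if `2 j = d` (`n_{-1} = 0`).
6. (`DimX`) the space of the maps `X` of Q1 has dimension
   `n_0² + ∑_{2j<d} n_j m_j + ∑_{2j+2≤d} (n_j m_{j+1} + n_{j+1} m_j)`. -/
theorem result {K : Type*} [Field K] {V : Type*} [AddCommGroup V] [Module K V]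
    [FiniteDimensional K V] {A B : Module.End K V} {d : ℕ} {a b : ℕ → K}
    (hA : TDOrdering A B d a) (hB : TDOrdering B A d b) (irred : Irred A B) :
    StringDecomp A B d a b ∧ (∃ β : K, Recur d a β) ∧
    (∀ β : K, Recur d a β →
      ProducesX A B d a b β ∧ ExhaustsX A B d a b β ∧ FaithfulX A B d a b β) ∧
    DimEigenspaces A B d a b ∧ DimsM A B d a b ∧ DimX A B d a b :=
  main_X hA hB irred

end Pool.Agent.Results.MP_b7840d_al.FlagTridiagonalMaps
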